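import Pool.Agent.Q163.Hm.Geom

/-!
# Valuated Delta-matroids from odd-dimensional Hermitian isotropic subspaces

For every field `K` with a nontrivial involution, every nonarchimedean valuation that is invariant
under it (in every residue characteristic, trivial or not) and every Hermitian space of dimension
`2n+1` and Witt index `n`, the valuations of the maximal minors of a maximal isotropic subspace
form a valuated Delta-matroid.

The definitions (`ind`, `lifted`, `IsLowerFace`, `IsEdge`, `IsValuatedDeltaMatroid`,
`IsHermitianForm`, `IsWittBasis`, `minor`) are in `Pool.Agent.Q163.Hm.Defs`.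
-/

set_option autoImplicit false

namespace Pool.Agent.Results.MP_973d57_co.OddHermitian

open Q163.Hm

universe u v

/-- Coordinate formula for a Hermitian form in a Witt basis. -/
lemma form_eq {K : Type u} {V : Type v} [Field K] [AddCommGroup V] [Module K V] {n : ℕ}
    {σ : K ≃+* K} {b : V → V → K} (hb : IsHermitianForm σ b) {α : K}
    {B : Module.Basis (Fin n ⊕ Fin n ⊕ Unit) K V} (hB : IsWittBasis b α B) (x y : V) :
    b x y = ∑ k : Fin n, (B.repr x (Sum.inl k) * σ (B.repr y (Sum.inr (Sum.inl k))) +
        B.repr x (Sum.inr (Sum.inl k)) * σ (B.repr y (Sum.inl k))) +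
      α * (B.repr x (Sum.inr (Sum.inr ())) * σ (B.repr y (Sum.inr (Sum.inr ())))) := by
  classical
  have hl : ∀ z w : V, b z w = ∑ c, B.repr z c * b (B c) w := by
    intro z w
    let g : V →ₗ[K] K :=
      { toFun := fun z => b z w
        map_add' := fun p q => hb.add_left p q w
        map_smul' := fun a p => by
          have h := hb.smul a 1 p w
          rw [one_smul, map_one, mul_one] at h
          simpa using h }
    have h1 : g z = ∑ c, B.repr z c * g (B c) := by
      conv_lhs => rw [← B.sum_repr z]
      rw [map_sum]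
      exact Finset.sum_congr rfl fun c _ => by rw [map_smul, smul_eq_mul]
    exact h1
  have hr : ∀ c, b (B c) y = ∑ d, σ (B.repr y d) * b (B c) (B d) := by
    intro c
    rw [hb.herm, hl y (B c), map_sum]
    refine Finset.sum_congr rfl fun d _ => ?_
    rw [map_mul, ← hb.herm]
  rw [hl x y]
  simp only [hr]
  have hfe : ∀ i j : Fin n, b (B (Sum.inr (Sum.inl i))) (B (Sum.inl j)) = if i = j then 1 else 0 := by
    intro i j
    rw [hb.herm, hB.ef]
    by_cases h : i = j
    · subst h; simp
    · simp [h, Ne.symm h]
  have hge : ∀ i : Fin n, b (B (Sum.inr (Sum.inr ()))) (B (Sum.inl i)) = 0 := by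
    intro i; rw [hb.herm, hB.eg, map_zero]
  have hgf : ∀ i : Fin n, b (B (Sum.inr (Sum.inr ()))) (B (Sum.inr (Sum.inl i))) = 0 := by
    intro i; rw [hb.herm, hB.fg, map_zero]
  simp only [Fintype.sum_sum_type, hB.ee, hB.ef, hB.eg, hB.ff, hB.fg, hB.gg, hfe, hge, hgf,
    mul_zero, Finset.sum_const_zero, zero_add, add_zero, mul_ite, mul_one, Finset.sum_ite_eq,
    Finset.mem_univ, if_true, Finset.univ_unique, Finset.sum_singleton, PUnit.default_eq_unit]
  rw [Finset.sum_add_distrib]
  ring

/-- **Odd-dimensional Hermitian spaces.** Let `K` be a field with an involution `σ ≠ id`, let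
`ν : K → ℝ ∪ {∞}` be a `σ`-invariant valuation, and let `b` be a Hermitian form on a vector space
`V` with a Witt basis `e_1, …, e_n, f_1, …, f_n, g`, `b (g, g) = α ≠ 0`. Then for every isotropic
subspace `L` of dimension `n` and every basis `u` of `L`, the function `S ↦ ν (minor S)` is a
valuated Delta-matroid. -/
theorem result {K : Type u} {V : Type v} [Field K] [AddCommGroup V] [Module K V]
    (σ : K ≃+* K) (_hσ : ∀ a, σ (σ a) = a) (_hσ' : ∃ a, σ a ≠ a)
    (ν : AddValuation K (WithTop ℝ)) (hν : ∀ a, ν (σ a) = ν a) (n : ℕ)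
    (b : V → V → K) (hb : IsHermitianForm σ b) (α : K) (_hα : α ≠ 0)
    (B : Module.Basis (Fin n ⊕ Fin n ⊕ Unit) K V) (hB : IsWittBasis b α B)
    (L : Submodule K V) (hL : ∀ x ∈ L, ∀ y ∈ L, b x y = 0) (u : Module.Basis (Fin n) K L) :
    IsValuatedDeltaMatroid fun S => ν (minor B (fun i => (u i : V)) S) := by
  classical
  intro x y hxy
  obtain ⟨S, T, s, t, l, hST, rfl, rfl, hS, hT, heq, hU⟩ := exposed_of_edge hxy
  refine direction hST ?_
  let E : Matrix (Fin n) (Fin n) K := Matrix.of fun i k => B.repr (u i : V) (Sum.inl k)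
  let F : Matrix (Fin n) (Fin n) K := Matrix.of fun i k => B.repr (u i : V) (Sum.inr (Sum.inl k))
  let v : Fin n → K := fun i => B.repr (u i : V) (Sum.inr (Sum.inr ()))
  have hch : ∀ U, minor B (fun i => (u i : V)) U = (chart E F U).det := by
    intro U
    unfold minor
    congr 1
    ext i k
    simp only [chart, Matrix.of_apply, E, F]
    split_ifs <;> rfl
  refine exposed_pair ν (σ : K →+* K) hν E F v α ?_ S T s t l ?_ ?_ heq ?_
  · intro i j
    have h := hL (u i : V) (u i).2 (u j : V) (u j).2
    rw [form_eq hb hB] at h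
    exact h
  · rw [← hch]; exact hS
  · rw [← hch]; exact hT
  · intro U a h
    rw [← hch] at h
    exact hU U a h

end Pool.Agent.Results.MP_973d57_co.OddHermitian
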